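import Pool.Agent.H23.GZ.Targets5

/-!
Row SHZ of the board gz (page H34_GZ.md, section 6): integrals over the shell (helper55).
-/

set_option autoImplicit false

namespace Pool.Agent.H55.GZ

open MeasureTheory Set
open Pool.Agent.H34.GM Pool.Agent.H34.GZ

/-- the majorant -/
noncomputable def shzG {m : ℕ} (e : Fin m → ℝ) (N : ℕ) (z : V m) : ℝ :=
  (∏ j, ‖oc (Pool.Agent.H34.GM.mt z) j‖ ^ e j) * (1 + sz (Pool.Agent.H34.GM.mt z)) ^ (-(N : ℝ))

theorem shz_sz0 {m : ℕ} (z : Mat m) : 0 ≤ sz z := norm_nonneg _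

theorem shz_szsmul {m : ℕ} (c : ℝ) (z : Mat m) : sz (c • z) = |c| * sz z := by
  unfold sz
  have : ((fun i j => (c • z) i j) : V m) = c • ((fun i j => z i j) : V m) := rfl
  rw [this, norm_smul, Real.norm_eq_abs]

theorem shzG_meas (hSCP : T_SCP) (hMSR : T_MSR) {m : ℕ} (e : Fin m → ℝ) (N : ℕ) :
    Measurable (shzG e N) := by
  obtain ⟨-, -, -, -, -, -, hoc⟩ := hSCP m (fun _ => 1) (fun _ => one_pos)
  obtain ⟨-, -, -, hsz, -⟩ := hMSR.1 m
  unfold shzG
  apply Measurable.mul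
  · exact Finset.measurable_prod _ fun j _ => ((hoc j).norm).pow_const _
  · exact (measurable_const.add hsz).pow_const _

/-- the Haar integral of the majorant -/
theorem shzG_int (hGSM : T_GSM) (hSCP : T_SCP) (hMSR : T_MSR) {m : ℕ} (hm1 : 1 ≤ m)
    (e : Fin m → ℝ) (N : ℕ) (P : ℝ) (hP : P ≤ N) :
    ∫⁻ z, ENNReal.ofReal (shzG e N z) ∂(hm m) ≤
      ∫⁻ z : V m, ENNReal.ofReal ((∏ j, ‖oc (Pool.Agent.H34.GM.mt z) j‖ ^ (e j - m)) *
        (1 + sz (Pool.Agent.H34.GM.mt z)) ^ (-P)) := by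
  have hmG := (shzG_meas hSCP hMSR e N).ennreal_ofReal
  obtain ⟨-, hdet, -, hsz, -⟩ := hMSR.1 m
  have hmd : Measurable (fun z : V m => ENNReal.ofReal ((|(Pool.Agent.H34.GM.mt z).det| ^ m)⁻¹)) := by
    apply Measurable.ennreal_ofReal
    exact ((hdet.norm).pow_const m).inv
  unfold hm
  rw [lintegral_withDensity_eq_lintegral_mul _ hmd hmG]
  apply lintegral_mono
  intro z
  simp only [Pi.mul_apply]
  have h1 : 0 ≤ sz (Pool.Agent.H34.GM.mt z) := shz_sz0 _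
  by_cases hd : (Pool.Agent.H34.GM.mt z).det = 0
  · rw [hd, abs_zero, zero_pow (by omega), inv_zero, ENNReal.ofReal_zero, zero_mul]
    exact bot_le
  · obtain ⟨-, -, hdet', hpos, -⟩ := hGSM m (Pool.Agent.H34.GM.mt z)
    have hp := hpos hd
    rw [← ENNReal.ofReal_mul (by positivity)]
    apply ENNReal.ofReal_le_ofReal
    unfold shzG
    rw [hdet', ← Finset.prod_pow, ← Finset.prod_inv_distrib, ← mul_assoc,
      ← Finset.prod_mul_distrib]
    have h2 : ∀ j : Fin m, (‖oc (Pool.Agent.H34.GM.mt z) j‖ ^ m)⁻¹ * ‖oc (Pool.Agent.H34.GM.mt z) j‖ ^ e j =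
        ‖oc (Pool.Agent.H34.GM.mt z) j‖ ^ (e j - m) := by
      intro j
      rw [Real.rpow_sub (hp j), Real.rpow_natCast]
      ring
    rw [Finset.prod_congr rfl fun j _ => h2 j]
    apply mul_le_mul_of_nonneg_left
    · exact Real.rpow_le_rpow_of_exponent_le (by linarith) (by linarith)
    · exact Finset.prod_nonneg fun j _ => Real.rpow_nonneg (norm_nonneg _) _

theorem pf_SHZ : T_GSM → T_PWF → T_SCP → T_COL → T_HAR → T_MSR → T_PWC → T_SHZ := by
  intro hGSM hPWF hSCP hCOL hHAR hMSR hPWC m hm1 ε B K hε hB hK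
  have hm0 : (0:ℝ) < m := by exact_mod_cast hm1
  set B' : ℝ := 2 * B + m + K / m with hB'
  have hB'0 : 0 ≤ B' := by positivity
  set η : ℝ := ε / (2 * m) with hη
  have hη0 : 0 < η := by positivity
  obtain ⟨C, hC, hcol⟩ := hCOL m hm1 η B' hη0 hB'0
  obtain ⟨N, hN⟩ := exists_nat_ge ((m:ℝ) * (B' + m + 1))
  refine ⟨Real.exp N * C, N, by positivity, ?_⟩
  intro mu b f M hmu hb hmb hM hfm hf r hr
  obtain ⟨-, -, hsc, -, -, -, hoc⟩ := hSCP m (fun _ => 1) (fun _ => one_pos)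
  have hhom := (hPWC m hm1 mu).2 hmu
  have key : ∀ s : ℝ, (m:ℝ) / 2 + ε / m ≤ s → s ≤ K / m →
      ∫⁻ z in Shell m, ENNReal.ofReal ‖f ((r⁻¹ * (aN (Pool.Agent.H34.GM.mt z))⁻¹) • Pool.Agent.H34.GM.mt z) * pw mu (Pool.Agent.H34.GM.mt z)‖ ∂(hm m) ≤
        ENNReal.ofReal (Real.exp N * C * M * r ^ (m * s)) := by
    intro s hs1 hs2
    have hs0 : 0 ≤ s := le_trans (by positivity) hs1
    set e : Fin m → ℝ := fun j => b j + xp mu j + s with he
    -- pointwise bound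
    have hpt : ∀ z ∈ Shell m, ENNReal.ofReal ‖f ((r⁻¹ * (aN (Pool.Agent.H34.GM.mt z))⁻¹) • Pool.Agent.H34.GM.mt z) * pw mu (Pool.Agent.H34.GM.mt z)‖ ≤
        ENNReal.ofReal (Real.exp N * M * r ^ (m * s)) *
          ENNReal.ofReal (shzG e N (r⁻¹ • z)) := by
      intro z hz
      obtain ⟨ha1, ha2⟩ := hz
      have hap : 0 < aN (Pool.Agent.H34.GM.mt z) := lt_of_lt_of_le one_pos ha1
      have hd : (Pool.Agent.H34.GM.mt z).det ≠ 0 := by
        intro h0
        unfold aN at hap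
        rw [h0, abs_zero, Real.zero_rpow (by positivity)] at hap
        exact lt_irrefl _ hap
      set a := aN (Pool.Agent.H34.GM.mt z) with ha
      have hrp : 0 < r⁻¹ := inv_pos.2 hr
      have e1 : Pool.Agent.H34.GM.mt (r⁻¹ • z) = r⁻¹ • Pool.Agent.H34.GM.mt z := rfl
      have hd' : (r⁻¹ • Pool.Agent.H34.GM.mt z).det ≠ 0 := by
        rw [Matrix.det_smul]
        exact mul_ne_zero (pow_ne_zero _ hrp.ne') hd
      have hdw : ((r⁻¹ * a⁻¹) • Pool.Agent.H34.GM.mt z).det ≠ 0 := by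
        rw [Matrix.det_smul]
        exact mul_ne_zero (pow_ne_zero _ (by positivity)) hd
      obtain ⟨-, -, hdet', hpos, -⟩ := hGSM m (r⁻¹ • Pool.Agent.H34.GM.mt z)
      have hp := hpos hd'
      rw [← ENNReal.ofReal_mul (by positivity)]
      apply ENNReal.ofReal_le_ofReal
      rw [norm_mul, ← hhom r⁻¹ hrp (Pool.Agent.H34.GM.mt z) hd, (hPWF m mu _ hd').2]
      have hfz := hf _ hdw
      -- orthogonal components
      have ho : ∀ j, ‖oc ((r⁻¹ * a⁻¹) • Pool.Agent.H34.GM.mt z) j‖ = a⁻¹ * ‖oc (r⁻¹ • Pool.Agent.H34.GM.mt z) j‖ := by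
        intro j
        rw [mul_comm r⁻¹ a⁻¹, ← smul_smul, ((hsc a⁻¹ (r⁻¹ • Pool.Agent.H34.GM.mt z)).2 j), norm_smul,
          Real.norm_eq_abs, abs_of_pos (inv_pos.2 hap)]
      have hsw : sz ((r⁻¹ * a⁻¹) • Pool.Agent.H34.GM.mt z) = a⁻¹ * sz (r⁻¹ • Pool.Agent.H34.GM.mt z) := by
        rw [mul_comm r⁻¹ a⁻¹, ← smul_smul, shz_szsmul, abs_of_pos (inv_pos.2 hap)]
      have h1 : (∏ j, ‖oc ((r⁻¹ * a⁻¹) • Pool.Agent.H34.GM.mt z) j‖ ^ b j) ≤
          ∏ j, ‖oc (r⁻¹ • Pool.Agent.H34.GM.mt z) j‖ ^ b j := by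
        apply Finset.prod_le_prod
        · intro j _
          exact Real.rpow_nonneg (norm_nonneg _) _
        · intro j _
          rw [ho j]
          apply Real.rpow_le_rpow (by positivity) _ (hb j).2.1
          have : a⁻¹ ≤ 1 := inv_le_one_of_one_le₀ ha1
          nlinarith [norm_nonneg (oc (r⁻¹ • Pool.Agent.H34.GM.mt z) j)]
      have hsz0 : 0 ≤ sz (r⁻¹ • Pool.Agent.H34.GM.mt z) := shz_sz0 _
      have h2 : (1 + sz ((r⁻¹ * a⁻¹) • Pool.Agent.H34.GM.mt z)) ^ (-(N : ℝ)) ≤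
          Real.exp N * (1 + sz (r⁻¹ • Pool.Agent.H34.GM.mt z)) ^ (-(N : ℝ)) := by
        have h3 : (1 + sz (r⁻¹ • Pool.Agent.H34.GM.mt z)) * (Real.exp 1)⁻¹ ≤ 1 + sz ((r⁻¹ * a⁻¹) • Pool.Agent.H34.GM.mt z) := by
          rw [hsw]
          have h4 : (Real.exp 1)⁻¹ ≤ a⁻¹ := inv_anti₀ hap ha2.le
          have h5 : (Real.exp 1)⁻¹ ≤ 1 := inv_le_one_of_one_le₀ (Real.one_le_exp (by norm_num))
          nlinarith
        calc (1 + sz ((r⁻¹ * a⁻¹) • Pool.Agent.H34.GM.mt z)) ^ (-(N : ℝ))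
            ≤ ((1 + sz (r⁻¹ • Pool.Agent.H34.GM.mt z)) * (Real.exp 1)⁻¹) ^ (-(N : ℝ)) :=
              Real.rpow_le_rpow_of_nonpos (by positivity) h3 (by simp)
          _ = Real.exp N * (1 + sz (r⁻¹ • Pool.Agent.H34.GM.mt z)) ^ (-(N : ℝ)) := by
              rw [Real.mul_rpow (by positivity) (by positivity), ← Real.exp_neg,
                ← Real.exp_mul, mul_comm]
              congr 2
              ring
      have h3 : 1 ≤ r ^ (m * s) * ∏ j, ‖oc (r⁻¹ • Pool.Agent.H34.GM.mt z) j‖ ^ s := by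
        rw [Real.finsetProd_rpow _ _ (fun j _ => norm_nonneg _), ← hdet', Real.rpow_mul hr.le,
          ← Real.mul_rpow (by positivity) (abs_nonneg _)]
        apply Real.one_le_rpow _ hs0
        rw [Matrix.det_smul, Fintype.card_fin, abs_mul, abs_of_pos (by positivity),
          Real.rpow_natCast, ← mul_assoc, ← mul_pow, mul_inv_cancel₀ hr.ne', one_pow, one_mul]
        by_contra hlt
        have h4 : |(Pool.Agent.H34.GM.mt z).det| < 1 := not_le.1 hlt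
        have h5 : aN (Pool.Agent.H34.GM.mt z) < 1 := by
          unfold aN
          exact Real.rpow_lt_one (abs_nonneg _) h4 (by positivity)
        exact absurd ha1 (not_le.2 h5)
      have h4 : 0 ≤ ∏ j, ‖oc (r⁻¹ • Pool.Agent.H34.GM.mt z) j‖ ^ xp mu j :=
        Finset.prod_nonneg fun j _ => Real.rpow_nonneg (norm_nonneg _) _
      have h5 : 0 ≤ ∏ j, ‖oc (r⁻¹ • Pool.Agent.H34.GM.mt z) j‖ ^ b j :=
        Finset.prod_nonneg fun j _ => Real.rpow_nonneg (norm_nonneg _) _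
      have h6 : 0 ≤ (1 + sz (r⁻¹ • Pool.Agent.H34.GM.mt z)) ^ (-(N : ℝ)) := by positivity
      have h7 : shzG e N (r⁻¹ • z) = ((∏ j, ‖oc (r⁻¹ • Pool.Agent.H34.GM.mt z) j‖ ^ b j) *
          (∏ j, ‖oc (r⁻¹ • Pool.Agent.H34.GM.mt z) j‖ ^ xp mu j) * ∏ j, ‖oc (r⁻¹ • Pool.Agent.H34.GM.mt z) j‖ ^ s) *
          (1 + sz (r⁻¹ • Pool.Agent.H34.GM.mt z)) ^ (-(N : ℝ)) := by
        unfold shzG
        rw [e1, ← Finset.prod_mul_distrib, ← Finset.prod_mul_distrib]
        congr 1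
        apply Finset.prod_congr rfl
        intro j _
        rw [he]
        simp only
        rw [Real.rpow_add (hp j), Real.rpow_add (hp j)]
      rw [h7]
      calc ‖f ((r⁻¹ * a⁻¹) • Pool.Agent.H34.GM.mt z)‖ * ∏ j, ‖oc (r⁻¹ • Pool.Agent.H34.GM.mt z) j‖ ^ xp mu j
          ≤ (M * (∏ j, ‖oc ((r⁻¹ * a⁻¹) • Pool.Agent.H34.GM.mt z) j‖ ^ b j) *
              (1 + sz ((r⁻¹ * a⁻¹) • Pool.Agent.H34.GM.mt z)) ^ (-(N : ℝ))) *
              ∏ j, ‖oc (r⁻¹ • Pool.Agent.H34.GM.mt z) j‖ ^ xp mu j := mul_le_mul_of_nonneg_right hfz h4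
        _ ≤ (M * (∏ j, ‖oc (r⁻¹ • Pool.Agent.H34.GM.mt z) j‖ ^ b j) *
              (Real.exp N * (1 + sz (r⁻¹ • Pool.Agent.H34.GM.mt z)) ^ (-(N : ℝ)))) *
              ∏ j, ‖oc (r⁻¹ • Pool.Agent.H34.GM.mt z) j‖ ^ xp mu j := by
            apply mul_le_mul_of_nonneg_right _ h4
            apply mul_le_mul (mul_le_mul_of_nonneg_left h1 hM) h2
            · exact Real.rpow_nonneg (by have := shz_sz0 ((r⁻¹ * a⁻¹) • Pool.Agent.H34.GM.mt z); linarith) _
            · exact mul_nonneg hM h5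
        _ = (M * (∏ j, ‖oc (r⁻¹ • Pool.Agent.H34.GM.mt z) j‖ ^ b j) *
              (Real.exp N * (1 + sz (r⁻¹ • Pool.Agent.H34.GM.mt z)) ^ (-(N : ℝ))) *
              ∏ j, ‖oc (r⁻¹ • Pool.Agent.H34.GM.mt z) j‖ ^ xp mu j) * 1 := (mul_one _).symm
        _ ≤ (M * (∏ j, ‖oc (r⁻¹ • Pool.Agent.H34.GM.mt z) j‖ ^ b j) *
              (Real.exp N * (1 + sz (r⁻¹ • Pool.Agent.H34.GM.mt z)) ^ (-(N : ℝ))) *
              ∏ j, ‖oc (r⁻¹ • Pool.Agent.H34.GM.mt z) j‖ ^ xp mu j) *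
              (r ^ (m * s) * ∏ j, ‖oc (r⁻¹ • Pool.Agent.H34.GM.mt z) j‖ ^ s) := by
            apply mul_le_mul_of_nonneg_left h3
            positivity
        _ = _ := by ring
    have hmG := (shzG_meas hSCP hMSR e N).ennreal_ofReal
    have hhar := (hHAR m hm1).1 (r⁻¹ • (1 : Mat m)) (by
      rw [Matrix.det_smul, Matrix.det_one, mul_one]
      exact pow_ne_zero _ (inv_pos.2 hr).ne') (fun z => ENNReal.ofReal (shzG e N z)) hmG
    have hcol' := hcol (fun j => e j - m) (by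
      intro j
      have hj : ((j : ℕ) : ℝ) ≤ m := by exact_mod_cast j.2.le
      have hj0 : (0:ℝ) ≤ ((j : ℕ) : ℝ) := by positivity
      have hx : xp mu j = -(mu j).re + (j : ℕ) - ((m : ℝ) - 1) / 2 := by
        unfold xp
        ring
      obtain ⟨hb1, hb2, hb3⟩ := hb j
      have hb4 := abs_le.1 hb1
      have hb5 := hmb j
      have h6 : η = ε / m / 2 := by rw [hη]; field_simp
      have hm1' : (1:ℝ) ≤ m := by exact_mod_cast hm1
      simp only [he, hx]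
      constructor
      · rw [h6]
        rw [h6] at hb5
        linarith
      · rw [hB']
        linarith)
    calc ∫⁻ z in Shell m, ENNReal.ofReal ‖f ((r⁻¹ * (aN (Pool.Agent.H34.GM.mt z))⁻¹) • Pool.Agent.H34.GM.mt z) * pw mu (Pool.Agent.H34.GM.mt z)‖ ∂(hm m)
        ≤ ∫⁻ z in Shell m, ENNReal.ofReal (Real.exp N * M * r ^ (m * s)) *
          ENNReal.ofReal (shzG e N (r⁻¹ • z)) ∂(hm m) := by
          obtain ⟨-, -, -, -, -, hSh, -, -⟩ := hMSR.1 m
          exact setLIntegral_mono' hSh hpt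
      _ ≤ ∫⁻ z, ENNReal.ofReal (Real.exp N * M * r ^ (m * s)) *
          ENNReal.ofReal (shzG e N (r⁻¹ • z)) ∂(hm m) := setLIntegral_le_lintegral _ _
      _ = ENNReal.ofReal (Real.exp N * M * r ^ (m * s)) *
          ∫⁻ z, ENNReal.ofReal (shzG e N (r⁻¹ • z)) ∂(hm m) :=
          lintegral_const_mul' _ _ ENNReal.ofReal_ne_top
      _ = ENNReal.ofReal (Real.exp N * M * r ^ (m * s)) *
          ∫⁻ z, ENNReal.ofReal (shzG e N z) ∂(hm m) := by
          rw [← hhar.1]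
          congr 2
          funext z
          congr 2
          funext i j
          simp
      _ ≤ ENNReal.ofReal (Real.exp N * M * r ^ (m * s)) * ENNReal.ofReal C := by
          apply mul_le_mul_right
          exact (shzG_int hGSM hSCP hMSR hm1 e N _ hN).trans hcol'
      _ = ENNReal.ofReal (Real.exp N * C * M * r ^ (m * s)) := by
          rw [← ENNReal.ofReal_mul (by positivity)]
          congr 1
          ring
  have hKm : (m:ℝ) / 2 + ε / m ≤ K / m := by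
    rw [le_div_iff₀ hm0]
    have : ((m:ℝ) / 2 + ε / m) * m = (m:ℝ) ^ 2 / 2 + ε := by field_simp
    rw [this]
    exact hK
  have h1 := key (m / 2 + ε / m) le_rfl hKm
  have h2 := key (K / m) hKm le_rfl
  have e1 : (m:ℝ) * (m / 2 + ε / m) = (m:ℝ) ^ 2 / 2 + ε := by field_simp
  have e2 : (m:ℝ) * (K / m) = K := by field_simp
  rw [e1] at h1
  rw [e2, Real.rpow_natCast] at h2
  rcases le_total (r ^ K) (r ^ ((m : ℝ) ^ 2 / 2 + ε)) with h | h
  · rw [min_eq_left h]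
    exact h2
  · rw [min_eq_right h]
    exact h1

end Pool.Agent.H55.GZ
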