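import Pool.Agent.H23.GZ.Targets5

/-!
Row THB of the board gz (page H34_GZ.md, section 6): the bounds at infinity for the differences of
the Fourier transforms, by interpolation (helper55).
-/

set_option autoImplicit false

namespace Pool.Agent.H55.GZ

open MeasureTheory Set
open Pool.Agent.H34.GM Pool.Agent.H34.GZ

/-- interpolation of two bounds -/
theorem thb_interp {x A P Q θ : ℝ} (hx : 0 ≤ x) (hA : 0 ≤ A) (hP : 0 ≤ P) (hQ : 0 ≤ Q)
    (hθ0 : 0 < θ) (hθ1 : θ < 1) (h1 : x ≤ A * P) (h2 : x ≤ A * Q) :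
    x ≤ A * (P ^ (1 - θ) * Q ^ θ) := by
  have e : (1 - θ) + θ = 1 := by ring
  have h3 : x = x ^ (1 - θ) * x ^ θ := by
    rw [← Real.rpow_add' hx (by rw [e]; norm_num), e, Real.rpow_one]
  have h4 : A = A ^ (1 - θ) * A ^ θ := by
    rw [← Real.rpow_add' hA (by rw [e]; norm_num), e, Real.rpow_one]
  calc x = x ^ (1 - θ) * x ^ θ := h3
    _ ≤ (A * P) ^ (1 - θ) * (A * Q) ^ θ := by
        apply mul_le_mul
        · exact Real.rpow_le_rpow hx h1 (by linarith)
        · exact Real.rpow_le_rpow hx h2 hθ0.le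
        · positivity
        · positivity
    _ = (A ^ (1 - θ) * A ^ θ) * (P ^ (1 - θ) * Q ^ θ) := by
        rw [Real.mul_rpow hA hP, Real.mul_rpow hA hQ]
        ring
    _ = A * (P ^ (1 - θ) * Q ^ θ) := by rw [← h4]

theorem thb_meas (hSCP : T_SCP) {m : ℕ} (K : Fin m → ℕ) {f : Mat m → ℂ}
    (hf : Measurable (fun z : V m => f (Pool.Agent.H34.GM.mt z))) :
    Measurable (fun z : V m => sK K f (Pool.Agent.H34.GM.mt z)) := by
  unfold sK
  apply Finset.measurable_sum
  intro n _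
  apply Measurable.const_mul
  obtain ⟨-, -, -, -, -, h, -⟩ := hSCP m (fun j => (2 : ℝ) ^ n j) (fun j => by positivity)
  exact hf.comp h

theorem pf_THB : T_SHZ → T_TAY → T_RPS → T_TDS → T_SCP → T_THB := by
  intro hSHZ hTAY hRPS hTDS hSCP B hB m hm1 ε K1 hε hK1
  have hm0 : (0:ℝ) < m := by exact_mod_cast hm1
  obtain ⟨C, N0, hC, hS⟩ := hSHZ m hm1 ε B K1 hε hB hK1
  set θ : ℝ := min (1 / 2) (ε / (4 * m * (B + 1))) with hθ
  have hB1 : 0 < B + 1 := by linarith
  have hθ0 : 0 < θ := lt_min (by norm_num) (by positivity)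
  have hθ1 : θ < 1 := lt_of_le_of_lt (min_le_left _ _) (by norm_num)
  have hθB : θ * B ≤ ε / (4 * m) := by
    have h1 : θ ≤ ε / (4 * m * (B + 1)) := min_le_right _ _
    have h2 : ε / (4 * m * (B + 1)) * (B + 1) = ε / (4 * m) := by field_simp
    calc θ * B ≤ ε / (4 * m * (B + 1)) * B := mul_le_mul_of_nonneg_right h1 hB
      _ ≤ ε / (4 * m * (B + 1)) * (B + 1) :=
          mul_le_mul_of_nonneg_left (by linarith) (by positivity)
      _ = _ := h2
  obtain ⟨N, hN⟩ := exists_nat_ge ((N0 : ℝ) / θ)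
  have hN' : (N0 : ℝ) ≤ θ * N := by
    rw [div_le_iff₀ hθ0] at hN
    linarith
  -- uniform constants
  choose CT hCT hT using fun K : Fin m → ℕ => hTAY m K
  choose CR hCR hR using fun K : Fin m → ℕ => hRPS m K N
  set S : Finset (Fin m → ℕ) := Fintype.piFinset fun _ => Finset.range (⌊B⌋₊ + 1) with hSdef
  set C0 : ℝ := ∑ K ∈ S, (CT K + CR K) + 1 with hC0
  have hsum0 : 0 ≤ ∑ K ∈ S, (CT K + CR K) :=
    Finset.sum_nonneg fun K _ => add_nonneg (hCT K).le (hCR K).le
  have hC00 : 0 < C0 := by linarith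
  refine ⟨C * C0, N, by positivity, ?_⟩
  intro mu K φ M hmu hb hmb hM hφ hφM hφs hcf hrap hcfN r hr
  have hKS : K ∈ S := by
    rw [hSdef, Fintype.mem_piFinset]
    intro j
    rw [Finset.mem_range, Nat.lt_succ_iff]
    exact Nat.le_floor (hb j).2
  have hle : CT K + CR K ≤ C0 := by
    have := Finset.single_le_sum (f := fun K => CT K + CR K)
      (fun K _ => add_nonneg (hCT K).le (hCR K).le) hKS
    linarith
  have hmf : Measurable (fun z : V m => cf φ (Pool.Agent.H34.GM.mt z)) := by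
    have h1 : Continuous (fun z : V m => Pool.Agent.H34.GM.mt z) := continuous_id
    exact (hcf.comp h1).measurable
  have hTD := (hTDS m hm1 mu hmu K (cf φ) hmf hrap r hr).1
  rw [hTD]
  have hpt : ∀ z : Mat m, z.det ≠ 0 → ‖sK K (cf φ) z‖ ≤
      (C0 * M) * (∏ j, ‖oc z j‖ ^ ((1 - θ) * K j)) * (1 + sz z) ^ (-(N0 : ℝ)) := by
    intro z _
    have hs : 0 ≤ sz z := norm_nonneg _
    have hP0 : 0 ≤ ∏ j, ‖oc z j‖ ^ K j := Finset.prod_nonneg fun j _ => by positivity
    have h1 : ‖sK K (cf φ) z‖ ≤ (C0 * M) * ∏ j, ‖oc z j‖ ^ K j := by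
      refine (hT K φ M hφ hM hφM hφs z).trans ?_
      apply mul_le_mul_of_nonneg_right _ hP0
      apply mul_le_mul_of_nonneg_right _ hM
      have := hCR K
      linarith
    have h2 : ‖sK K (cf φ) z‖ ≤ (C0 * M) * (1 + sz z) ^ (-(N : ℝ)) := by
      refine (hR K (cf φ) M hM hcfN z).trans ?_
      apply mul_le_mul_of_nonneg_right _ (by positivity)
      apply mul_le_mul_of_nonneg_right _ hM
      have := hCT K
      linarith
    have h3 := thb_interp (norm_nonneg _) (by positivity) hP0 (by positivity) hθ0 hθ1 h1 h2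
    refine h3.trans ?_
    rw [mul_assoc (C0 * M)]
    apply mul_le_mul_of_nonneg_left _ (by positivity)
    rw [← Real.finsetProd_rpow _ _ (fun j _ => by positivity)]
    have h4 : ∀ j, (‖oc z j‖ ^ K j) ^ (1 - θ) = ‖oc z j‖ ^ ((1 - θ) * K j) := by
      intro j
      rw [← Real.rpow_natCast, ← Real.rpow_mul (norm_nonneg _), mul_comm]
    rw [Finset.prod_congr rfl fun j _ => h4 j]
    apply mul_le_mul_of_nonneg_left _ (Finset.prod_nonneg fun j _ => by positivity)
    rw [← Real.rpow_mul (by positivity)]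
    apply Real.rpow_le_rpow_of_exponent_le (by linarith)
    linarith
  have hmain := hS mu (fun j => (1 - θ) * K j) (sK K (cf φ)) (C0 * M) hmu (by
      intro j
      have hKj : (0:ℝ) ≤ K j := by positivity
      refine ⟨(hb j).1, mul_nonneg (by linarith) hKj, ?_⟩
      have := (hb j).2
      nlinarith) (by
      intro j
      have h1 := hmb j
      have h2 := (hb j).2
      have h3 : θ * (K j : ℝ) ≤ θ * B := mul_le_mul_of_nonneg_left h2 hθ0.le
      have h4 : ε / (2 * m) = ε / (4 * m) + ε / (4 * m) := by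
        field_simp
        norm_num
      rw [h4]
      have h5 : (mu j).re - (1 - θ) * (K j : ℝ) = ((mu j).re - K j) + θ * K j := by ring
      rw [h5]
      linarith) (by positivity) (thb_meas hSCP K hmf) hpt r hr
  unfold th1
  have h5 : 0 ≤ C * C0 * M * min (r ^ K1) (r ^ ((m : ℝ) ^ 2 / 2 + ε)) := by
    have : 0 ≤ min (r ^ K1) (r ^ ((m : ℝ) ^ 2 / 2 + ε)) :=
      le_min (by positivity) (Real.rpow_nonneg hr.le _)
    positivity
  have h6 := (norm_integral_le_lintegral_norm (μ := (hm m).restrict (Shell m))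
    (fun z : V m => sK K (cf φ) ((r⁻¹ * (aN (Pool.Agent.H34.GM.mt z))⁻¹) • Pool.Agent.H34.GM.mt z) * pw mu (Pool.Agent.H34.GM.mt z)))
  refine h6.trans ?_
  refine ENNReal.toReal_le_of_le_ofReal h5 ?_
  refine hmain.trans (le_of_eq ?_)
  congr 1
  ring

end Pool.Agent.H55.GZ
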