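import Pool.Agent.H23.GZ.Targets5
import Pool.Agent.H34.GM.TH1

/-!
Row PHX of the board gz (page H34_GZ.md, section 6): test functions adapted to the parameters at
infinity (helper55).
-/

set_option autoImplicit false

namespace Pool.Agent.H55.GZ

open MeasureTheory Set
open Pool.Agent.H34.GM Pool.Agent.H34.GZ

theorem phx_rap {m : ℕ} {Φ : Mat m → ℂ} (h : Tst m Φ) : Rap Φ := by
  intro N
  obtain ⟨M, hM0, hM⟩ := th1_bd h
  obtain ⟨c, hc, hs⟩ := h.supp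
  refine ⟨M * (1 + c) ^ (N : ℝ), fun z => ?_⟩
  have hz0 : 0 ≤ sz z := norm_nonneg _
  by_cases h0 : Φ z = 0
  · rw [h0, norm_zero]
    positivity
  · have h1 := (hs z h0).1
    have h2 : 1 ≤ (1 + c) ^ (N : ℝ) * (1 + sz z) ^ (-(N : ℝ)) := by
      rw [Real.rpow_neg (by positivity), ← div_eq_mul_inv, one_le_div (by positivity)]
      exact Real.rpow_le_rpow (by positivity) (by linarith) (by positivity)
    calc ‖Φ z‖ ≤ M := hM z
      _ = M * 1 := (mul_one _).symm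
      _ ≤ M * ((1 + c) ^ (N : ℝ) * (1 + sz z) ^ (-(N : ℝ))) := mul_le_mul_of_nonneg_left h2 hM0
      _ = _ := by ring

theorem phx_rapD {m : ℕ} {Ψ : Mat m → ℂ} (h : Dec m Ψ) : Rap Ψ := by
  intro N
  obtain ⟨C, -, hC⟩ := h.dec N
  exact ⟨C, hC⟩

theorem phx_thb (hTHE : T_THE) {m : ℕ} (hm1 : 1 ≤ m) {mu : Fin m → ℂ} (hmu : ∑ j, mu j = 0)
    {f f1 : Mat m → ℂ} (hf : Continuous f) (hf1 : Continuous f1) (hr : Rap f) (hr1 : Rap f1)
    (hd : ∀ z, HasDerivAt (fun c : ℝ => f (c • z)) (f1 z) 1) {M ε : ℝ} {K : ℕ}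
    (h0 : ∀ r : ℝ, 0 < r → ‖th1 f mu r‖ ≤ M * min (r ^ K) (r ^ ((m : ℝ) ^ 2 / 2 + ε)))
    (h1 : ∀ r : ℝ, 0 < r → ‖th1 f1 mu r‖ ≤ M * min (r ^ K) (r ^ ((m : ℝ) ^ 2 / 2 + ε))) :
    ThB f mu M ε K := by
  have hD := hTHE m hm1 mu hmu f f1 hf hf1 hr hr1 hd
  refine ⟨?_, h0, ?_⟩
  · intro r hr0
    exact (hD r hr0).differentiableAt.differentiableWithinAt
  · intro r hr0
    rw [(hD r hr0).deriv, norm_neg, norm_mul, norm_inv, Complex.norm_real, Real.norm_eq_abs,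
      abs_of_pos hr0, ← mul_assoc, mul_inv_cancel₀ hr0.ne', one_mul]
    exact h1 r hr0

theorem phx_min {r ε : ℝ} {m K : ℕ} (hr : 0 < r) :
    0 ≤ min (r ^ K) (r ^ ((m : ℝ) ^ 2 / 2 + ε)) :=
  le_min (by positivity) (Real.rpow_nonneg hr.le _)

theorem phx_le {δ C C' : ℝ} {a A : ℕ} (hδ : 0 < δ) (hδ1 : δ ≤ 1 / 2) (hC' : 0 ≤ C')
    (hC : C' ≤ C) (ha : a ≤ A) : C' * δ⁻¹ ^ a ≤ C * δ⁻¹ ^ A := by
  have h1 : 1 ≤ δ⁻¹ := by
    rw [one_le_inv₀ hδ]
    linarith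
  exact mul_le_mul hC (pow_le_pow_right₀ h1 ha) (by positivity) (hC'.trans hC)

theorem phx_one {δ : ℝ} (a : ℕ) (hδ : 0 < δ) (hδ1 : δ ≤ 1 / 2) : 1 ≤ δ⁻¹ ^ a := by
  apply one_le_pow₀
  rw [one_le_inv₀ hδ]
  linarith

/-- the real parts are bounded -/
theorem phx_re {m : ℕ} {mu : Fin m → ℂ} (hmu : ∑ j, mu j = 0) {b : ℝ}
    (hb : ∀ j, (mu j).re ≤ b) (j : Fin m) : |(mu j).re| ≤ m * |b| := by
  have hm1 : (1:ℝ) ≤ m := by
    have : 1 ≤ m := Nat.succ_le_of_lt (lt_of_le_of_lt (Nat.zero_le _) j.2)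
    exact_mod_cast this
  have hb0 : b ≤ |b| := le_abs_self b
  have hb1 : 0 ≤ |b| := abs_nonneg b
  have h1 : ∑ i, (mu i).re = 0 := by
    have := congrArg Complex.re hmu
    rwa [Complex.re_sum, Complex.zero_re] at this
  rw [abs_le]
  constructor
  · have h2 : ∑ i ∈ Finset.univ.erase j, (mu i).re ≤ ∑ i ∈ Finset.univ.erase j, |b| :=
      Finset.sum_le_sum fun i _ => (hb i).trans hb0
    rw [Finset.sum_const, Finset.card_erase_of_mem (Finset.mem_univ j), Finset.card_univ,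
      Fintype.card_fin, nsmul_eq_mul] at h2
    rw [← Finset.add_sum_erase _ _ (Finset.mem_univ j)] at h1
    have h3 : ((m - 1 : ℕ) : ℝ) ≤ m := by exact_mod_cast Nat.sub_le m 1
    nlinarith
  · have := hb j
    nlinarith

/-- the lower bound for one factor -/
theorem phx_factor (hPKB : T_PKB) {K : ℕ} {X : ℂ} {η κ : ℝ} (hη : 0 < η)
    (hκ0 : 0 < κ) (hκ1 : κ ≤ 1) (hκ2 : κ ≤ (2:ℝ) ^ η - 1)
    (hX : 1 ≤ K → (2:ℝ) ^ (((K : ℝ) - 1) + η) ≤ ‖X‖) {N : ℕ} (hN : K ≤ N) :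
    κ ^ N ≤ ‖∑ n ∈ Finset.range (K + 1), (((pK K).coeff n : ℝ) : ℂ) * X ^ n‖ := by
  rcases Nat.eq_zero_or_pos K with h0 | h0
  · subst h0
    rw [hPKB.1 0 X, Finset.range_zero, Finset.prod_empty, norm_one]
    exact pow_le_one₀ hκ0.le hκ1
  · refine le_trans ?_ (hPKB.2.1 K X η hη (hX h0))
    calc κ ^ N ≤ κ ^ K := pow_le_pow_of_le_one hκ0.le hκ1 hN
      _ ≤ ((2:ℝ) ^ η - 1) ^ K := pow_le_pow_left₀ hκ0.le hκ2 K

theorem pf_PHX : T_PRF → T_ZLB → T_BEU → T_FTE → T_FTG → T_EUL → T_EKD → T_ZEK → T_PKB →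
    T_THE → T_TCK → T_THB → (∀ B : ℕ → ℝ, T_PHX B) := by
  intro hPRF hZLB hBEU hFTE hFTG hEUL hEKD hZEK hPKB hTHE hTCK hTHB B m hm1 ε K hε hK
  have hm0 : (0:ℝ) < m := by exact_mod_cast hm1
  obtain ⟨χ, hχ⟩ := hPRF
  obtain ⟨CE, AE, hCE, hE⟩ := hBEU m χ hm1 hχ
  set B1 : ℝ := m * |B m| with hB1
  have hB10 : 0 ≤ B1 := by positivity
  set B3 : ℝ := B1 + 2 + (2:ℝ) ^ (B1 + m) with hB3
  have h2p : (0:ℝ) < (2:ℝ) ^ (B1 + m) := by positivity
  have hB30 : 0 ≤ B3 := by positivity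
  obtain ⟨c0, CT, hc0, hCT, hT⟩ := hTCK m hm1 ε B3 K hε hB30
  obtain ⟨CH, N, hCH, hH⟩ := hTHB B3 hB30 m hm1 ε K hε hK
  obtain ⟨CF, AF, hCF, hF⟩ := hFTE m χ hm1 hχ N
  obtain ⟨cZ, c1, hcZ, hc1, hZ⟩ := hZLB m χ hm1 hχ
  set η : ℝ := ε / (4 * m) with hη
  have hη0 : 0 < η := by positivity
  set κ : ℝ := min 1 ((2:ℝ) ^ η - 1) with hκ
  have hκ0 : 0 < κ := by
    apply lt_min one_pos
    have := Real.one_lt_rpow (by norm_num : (1:ℝ) < 2) hη0
    linarith
  set N2 : ℕ := ⌈B1 + 2⌉₊ with hN2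
  set C : ℝ := CT + CT * CE + CH * (1 + CF) + CH * ((m:ℝ) ^ 2 + CE + CF) with hC
  set c : ℝ := min c0 (min (cZ / 2) ((κ ^ N2) ^ m * c1)) with hc
  have hcpos : 0 < c := by
    apply lt_min hc0
    apply lt_min (by positivity)
    positivity
  refine ⟨C, c, AE + AF, by positivity, hcpos, ?_⟩
  intro mu t δ hmu hre hδ hδ1 hpsz
  have hsum0 : 0 ≤ ∑ j, ‖mu j‖ := Finset.sum_nonneg fun j _ => norm_nonneg _
  have hδp : δ * (1 + ∑ j, ‖mu j‖) ≤ c0 := by
    refine le_trans ?_ (hpsz.trans (min_le_left _ _))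
    apply mul_le_mul_of_nonneg_left _ hδ.le
    unfold psz
    have := abs_nonneg t
    linarith
  have habs := phx_re hmu hre
  -- the numbers of the factors
  set Kj : Fin m → ℕ := fun j => ⌈(mu j).re - 1 / 2 - η⌉₊ with hKj
  have hKj1 : ∀ j, (mu j).re - Kj j ≤ 1 / 2 + η := by
    intro j
    have := Nat.le_ceil ((mu j).re - 1 / 2 - η)
    simp only [hKj]
    linarith
  have hKj2 : ∀ j, 1 ≤ Kj j → (Kj j : ℝ) - 1 + η ≤ (mu j).re - 1 / 2 := by
    intro j hj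
    have h1 : 0 < (mu j).re - 1 / 2 - η := Nat.ceil_pos.1 hj
    have := Nat.ceil_lt_add_one h1.le
    simp only [hKj]
    linarith
  have hKj3 : ∀ j, (Kj j : ℝ) ≤ B1 + 2 := by
    intro j
    rcases Nat.eq_zero_or_pos (Kj j) with h0 | h0
    · rw [h0, Nat.cast_zero]
      linarith
    · have h1 := hKj2 j h0
      have h2 := (abs_le.1 (habs j)).2
      linarith
  have hKj4 : ∀ j, Kj j ≤ N2 := by
    intro j
    have h1 := (hKj3 j).trans (Nat.le_ceil (B1 + 2))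
    exact_mod_cast h1
  set cc : Fin m → ℂ := fun j => (starRingEnd ℂ) (cmu mu j) with hcc
  have hnc : ∀ j, ‖cc j‖ = (2:ℝ) ^ ((mu j).re + ((m:ℝ) - 1) / 2) := by
    intro j
    simp only [hcc, RCLike.norm_conj]
    unfold cmu
    have e2 : (2:ℂ) = ((2:ℝ) : ℂ) := by norm_num
    rw [e2, Complex.norm_cpow_eq_rpow_re_of_pos (by norm_num)]
    congr 1
    have e3 : (((m:ℂ) - 1) / 2) = ((((m:ℝ) - 1) / 2 : ℝ) : ℂ) := by push_cast; ring
    rw [Complex.add_re]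
    congr 1
    norm_num
  have hB3a : ∀ j, (Kj j : ℝ) ≤ B3 := by
    intro j
    have := hKj3 j
    linarith
  have hB3b : ∀ j, ‖cc j‖ ≤ B3 := by
    intro j
    rw [hnc j]
    have h1 : (2:ℝ) ^ ((mu j).re + ((m:ℝ) - 1) / 2) ≤ (2:ℝ) ^ (B1 + m) := by
      apply Real.rpow_le_rpow_of_exponent_le (by norm_num)
      have := (abs_le.1 (habs j)).2
      linarith
    linarith
  have hB3c : ∀ j, |(mu j).re| ≤ B3 := by
    intro j
    have := habs j
    linarith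
  -- the test function
  obtain ⟨hS0, hE1⟩ := hE δ hδ hδ1
  set Φ0 : Mat m → ℂ := bump m χ δ with hΦ0
  obtain ⟨hSe, hSe2, hD0, hDc0⟩ := hEUL m hm1 Φ0 hS0
  obtain ⟨hSΦ, hcfΦ, heuΦ, heu2Φ⟩ := hEKD m hm1 Kj cc Φ0 hS0
  obtain ⟨-, hcf2, -, -⟩ := hEKD m hm1 Kj cc (eu2 Φ0) hSe2
  set Φ : Mat m → ℂ := eK Kj cc Φ0 with hΦ
  obtain ⟨hSeΦ, hSe2Φ, hDΦ, hDcΦ⟩ := hEUL m hm1 Φ hSΦ
  have hccc : (fun j => (starRingEnd ℂ) (cc j)) = cmu mu := by
    funext j
    simp [hcc]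
  rw [hccc] at hcfΦ hcf2
  have ecf : cf Φ = dK Kj (cmu mu) (cf Φ0) := funext hcfΦ
  have ecf2 : cf (eu2 Φ) = dK Kj (cmu mu) (cf (eu2 Φ0)) := by
    rw [heu2Φ]
    exact funext hcf2
  have hFΦ := (hFTG m hm1 Φ hSΦ).1
  have hFe2Φ := (hFTG m hm1 (eu2 Φ) hSe2Φ).1
  have hFΦ0 := (hFTG m hm1 Φ0 hS0).1
  have hFe2Φ0 := (hFTG m hm1 (eu2 Φ0) hSe2).1
  have hcontV : Continuous (fun z : V m => Pool.Agent.H34.GM.mt z) := continuous_id
  refine ⟨Φ, hSΦ, ?_, ?_, ?_⟩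
  · -- the function itself
    refine phx_thb hTHE hm1 hmu hSΦ.cont hSeΦ.cont (phx_rap hSΦ.toTst) (phx_rap hSeΦ.toTst) hDΦ
      ?_ ?_
    · intro r hr
      have h1 := hT mu Kj cc δ 1 Φ0 hmu (fun j => ⟨hB3a j, hB3b j⟩) hδ hδ1 hδp zero_le_one
        (hS0.cont.comp hcontV).measurable (fun z => (hE1 z).1) (fun z => (hE1 z).2.2.1) r hr
      refine h1.trans ?_
      apply mul_le_mul_of_nonneg_right _ (phx_min hr)
      have h2 := phx_le (C := C) (A := AE + AF) (a := 0) hδ hδ1 hCT.le (by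
        rw [hC]
        have e1 : 0 ≤ CT * CE := by positivity
        have e2 : 0 ≤ CH * (1 + CF) := by positivity
        have e3 : 0 ≤ CH * ((m:ℝ) ^ 2 + CE + CF) := by positivity
        linarith) (Nat.zero_le _)
      rw [pow_zero] at h2
      exact h2
    · intro r hr
      rw [heuΦ]
      have h1 := hT mu Kj cc δ (CE * δ⁻¹ ^ AE) (eu Φ0) hmu (fun j => ⟨hB3a j, hB3b j⟩) hδ hδ1
        hδp (by positivity) (hSe.cont.comp hcontV).measurable (fun z => (hE1 z).2.1)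
        (fun z => (hE1 z).2.2.2.1) r hr
      refine h1.trans ?_
      apply mul_le_mul_of_nonneg_right _ (phx_min hr)
      rw [← mul_assoc]
      refine phx_le hδ hδ1 (by positivity) ?_ (Nat.le_add_right _ _)
      rw [hC]
      have e2 : 0 ≤ CH * (1 + CF) := by positivity
      have e3 : 0 ≤ CH * ((m:ℝ) ^ 2 + CE + CF) := by positivity
      linarith
  · -- the Fourier transform
    have hgoal : ThB (cf Φ) mu (C * δ⁻¹ ^ (AE + AF)) ε K := by
      refine phx_thb (f := cf Φ) (f1 := cf (eu2 Φ)) hTHE hm1 hmu hFΦ.cont hFe2Φ.cont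
        (phx_rapD hFΦ) (phx_rapD hFe2Φ) hDcΦ ?_ ?_
      · intro r hr
        rw [ecf]
        have hM : 1 ≤ (1 + CF) * δ⁻¹ ^ AF := by
          have := phx_one AF hδ hδ1
          nlinarith
        have h1 := hH mu Kj Φ0 ((1 + CF) * δ⁻¹ ^ AF) hmu (fun j => ⟨hB3c j, hB3a j⟩) hKj1
          (by positivity) hS0.cont (fun z => (hE1 z).1.trans hM)
          (fun z hz => (hE1 z).2.2.2.2 ((hE1 z).2.2.1 hz)) hFΦ0.cont (phx_rapD hFΦ0)
          (fun w => by
            refine (hF δ hδ hδ1 w).1.trans ?_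
            have hs : 0 ≤ sz w := norm_nonneg _
            apply mul_le_mul_of_nonneg_right _ (by positivity)
            apply mul_le_mul_of_nonneg_right _ (by positivity)
            linarith) r hr
        refine h1.trans ?_
        apply mul_le_mul_of_nonneg_right _ (phx_min hr)
        rw [← mul_assoc]
        refine phx_le hδ hδ1 (by positivity) ?_ (Nat.le_add_left _ _)
        rw [hC]
        have e1 : 0 ≤ CT * CE := by positivity
        have e3 : 0 ≤ CH * ((m:ℝ) ^ 2 + CE + CF) := by positivity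
        linarith
      · intro r hr
        rw [ecf2]
        have h1 := hH mu Kj (eu2 Φ0) (((m:ℝ) ^ 2 + CE + CF) * δ⁻¹ ^ (AE + AF)) hmu
          (fun j => ⟨hB3c j, hB3a j⟩) hKj1 (by positivity) hSe2.cont
          (fun z => by
            unfold eu2
            rw [norm_neg]
            refine (norm_add_le _ _).trans ?_
            rw [norm_mul, norm_pow, Complex.norm_natCast]
            have e1 := (hE1 z).1
            have e2 := (hE1 z).2.1
            have e3 := phx_one (AE + AF) hδ hδ1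
            have e4 : CE * δ⁻¹ ^ AE ≤ CE * δ⁻¹ ^ (AE + AF) :=
              phx_le hδ hδ1 hCE.le le_rfl (Nat.le_add_right _ _)
            have e5 : 0 ≤ (m:ℝ) ^ 2 := by positivity
            have e6 : (m:ℝ) ^ 2 * ‖Φ0 z‖ ≤ (m:ℝ) ^ 2 * δ⁻¹ ^ (AE + AF) :=
              mul_le_mul_of_nonneg_left (e1.trans e3) e5
            have e7 : 0 ≤ CF * δ⁻¹ ^ (AE + AF) := by positivity
            calc (m:ℝ) ^ 2 * ‖Φ0 z‖ + ‖eu Φ0 z‖
                ≤ (m:ℝ) ^ 2 * δ⁻¹ ^ (AE + AF) + CE * δ⁻¹ ^ (AE + AF) := by linarith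
              _ ≤ _ := by nlinarith)
          (fun z hz => by
            apply (hE1 z).2.2.2.2
            by_contra hcon
            have h3 : Φ0 z = 0 := by
              by_contra h4
              exact hcon ((hE1 z).2.2.1 h4)
            have h4 : eu Φ0 z = 0 := by
              by_contra h5
              exact hcon ((hE1 z).2.2.2.1 h5)
            apply hz
            unfold eu2
            rw [h3, h4]
            simp) hFe2Φ0.cont (phx_rapD hFe2Φ0)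
          (fun w => by
            refine (hF δ hδ hδ1 w).2.trans ?_
            have hs : 0 ≤ sz w := norm_nonneg _
            apply mul_le_mul_of_nonneg_right _ (by positivity)
            refine phx_le hδ hδ1 hCF.le ?_ (Nat.le_add_left _ _)
            have : 0 ≤ (m:ℝ) ^ 2 := by positivity
            linarith) r hr
        refine h1.trans ?_
        apply mul_le_mul_of_nonneg_right _ (phx_min hr)
        rw [← mul_assoc]
        refine phx_le hδ hδ1 (by positivity) ?_ le_rfl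
        rw [hC]
        have e1 : 0 ≤ CT * CE := by positivity
        have e2 : 0 ≤ CH * (1 + CF) := by positivity
        linarith
    exact hgoal
  · -- the lower bound
    have hz1 := hZEK m hm1 Kj cc Φ0 mu hmu hS0.toTst (1 / 2 + t * Complex.I)
    rw [hz1, norm_mul, norm_prod]
    have h1 : ∀ j, κ ^ N2 ≤ ‖∑ n ∈ Finset.range (Kj j + 1), (((pK (Kj j)).coeff n : ℝ) : ℂ) *
        (cc j * (2 : ℂ) ^ ((1 / 2 + t * Complex.I) + ((m : ℂ) - 1) / 2 - m)) ^ n‖ := by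
      intro j
      refine phx_factor hPKB hη0 hκ0 (min_le_left _ _) (min_le_right _ _) ?_ (hKj4 j)
      intro hj
      rw [norm_mul, hnc j]
      have e2 : (2:ℂ) = ((2:ℝ) : ℂ) := by norm_num
      have e4 : ‖(2 : ℂ) ^ ((1 / 2 + t * Complex.I) + ((m : ℂ) - 1) / 2 - m)‖ =
          (2:ℝ) ^ ((1:ℝ) / 2 + ((m:ℝ) - 1) / 2 - m) := by
        have e5 : ∀ X : ℂ, ‖(2:ℂ) ^ X‖ = (2:ℝ) ^ X.re := by
          intro X
          rw [e2, Complex.norm_cpow_eq_rpow_re_of_pos (by norm_num)]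
        rw [e5]
        congr 1
        have e3 : ((1 / 2 + t * Complex.I) + ((m : ℂ) - 1) / 2 - m) =
            (((1:ℝ) / 2 + ((m:ℝ) - 1) / 2 - m : ℝ) : ℂ) + t * Complex.I := by
          push_cast
          ring
        rw [e3, Complex.add_re, Complex.ofReal_re, Complex.re_ofReal_mul, Complex.I_re]
        ring
      rw [e4, ← Real.rpow_add (by norm_num)]
      apply Real.rpow_le_rpow_of_exponent_le (by norm_num)
      have := hKj2 j hj
      linarith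
    have h2 : (κ ^ N2) ^ m ≤ ∏ j, ‖∑ n ∈ Finset.range (Kj j + 1),
        (((pK (Kj j)).coeff n : ℝ) : ℂ) *
        (cc j * (2 : ℂ) ^ ((1 / 2 + t * Complex.I) + ((m : ℂ) - 1) / 2 - m)) ^ n‖ := by
      have h3 := Finset.prod_le_prod (s := Finset.univ) (f := fun _ : Fin m => κ ^ N2)
        (fun j _ => by positivity) (fun j _ => h1 j)
      rwa [Finset.prod_const, Finset.card_univ, Fintype.card_fin] at h3
    have h4 : c1 * δ ^ (m ^ 2) ≤ ‖Zf Φ0 mu (1 / 2 + t * Complex.I)‖ := by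
      apply hZ mu _ δ hδ hδ1
      have h5 : ‖(1 / 2 + t * Complex.I : ℂ)‖ ≤ 1 / 2 + |t| := by
        refine (norm_add_le _ _).trans ?_
        rw [norm_mul, Complex.norm_I, mul_one, Complex.norm_real, Real.norm_eq_abs]
        norm_num
      have h6 : δ * psz t mu ≤ cZ / 2 := hpsz.trans ((min_le_right _ _).trans (min_le_left _ _))
      unfold psz at h6
      have h7 : 1 + ‖(1 / 2 + t * Complex.I : ℂ)‖ + ∑ j, ‖mu j‖ ≤
          2 * (1 + |t| + ∑ j, ‖mu j‖) := by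
        have := abs_nonneg t
        linarith
      calc δ * (1 + ‖(1 / 2 + t * Complex.I : ℂ)‖ + ∑ j, ‖mu j‖)
          ≤ δ * (2 * (1 + |t| + ∑ j, ‖mu j‖)) := mul_le_mul_of_nonneg_left h7 hδ.le
        _ ≤ cZ := by linarith
    calc c * δ ^ (m ^ 2) ≤ ((κ ^ N2) ^ m * c1) * δ ^ (m ^ 2) := by
          apply mul_le_mul_of_nonneg_right _ (by positivity)
          exact (min_le_right _ _).trans (min_le_right _ _)
      _ = (κ ^ N2) ^ m * (c1 * δ ^ (m ^ 2)) := by ring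
      _ ≤ _ := mul_le_mul h2 h4 (by positivity) (Finset.prod_nonneg fun j _ => norm_nonneg _)

end Pool.Agent.H55.GZ
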